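import Mathlib

open Polynomial

namespace Pool.Agent.Lib.MP_543a09_nt

/-- `(a, h)` is visible along `F`: `a, h` are positive and `h = t F(a)` for some rational `t` such
that the smallest positive integer `u` making `t F(u)` a positive integer is `a`. -/
def VisibleAlong (F : ℤ[X]) (a h : ℕ) : Prop :=
  0 < a ∧ 0 < h ∧ ∃ t : ℚ, (h : ℚ) = t * ((F.eval (a : ℤ) : ℤ) : ℚ) ∧
    IsLeast {u : ℕ | 0 < u ∧ ∃ m : ℕ, 0 < m ∧ t * ((F.eval (u : ℤ) : ℤ) : ℚ) = m} a

end Pool.Agent.Lib.MP_543a09_nt
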