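import Mathlib
import Pool.Agent.Lib.MP_543a09_nt.Defs

open Polynomial Filter Topology

/-!
# Density of lattice points visible along a polynomial (MP_543a09_nt)

Outline of the proof.  Let `n = deg F ≥ 2`.  If `a` is large and `(a, h)` is invisible along `F` then
`d F(u) = k F(a)` for some positive integer `u < a` and some `1 ≤ k < d` with `d ∣ gcd (F(a), h)`.

* Pairs with `gcd (F(a), h) > y!` have a common prime power divisor `p ^ j > y`; counting pairs with
  `p ∣ F(a)`, `p ^ j ∣ h` shows that their proportion is `O (∑_{p ^ j > y} p ^ (-j-1))`, which tends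
  to `0` as `y → ∞`.
* For fixed `k < d` put `α = (k/d)^(1/n)` and `β = (1-α) s`, `s` the centroid of the roots.  A solution
  of `d F(u) = k F(a)` satisfies `u = α a + β + o(1)`.  If `α` is irrational such `a` have gaps tending
  to infinity on average, so have density `0`.  If `α` is rational then `u = α a + β` for large `a`; if
  this happened for infinitely many `a` then `F(α x + β) = α ^ n F(x)` identically, so the contraction
  `x ↦ α x + β` would map the root set to itself injectively, impossible with two distinct roots.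
-/

namespace Pool.Agent.Lib.MP_543a09_nt

lemma eventually_dom (P : ℝ[X]) (hdeg : 2 ≤ P.natDegree) (hl : 0 < P.leadingCoeff) :
    ∃ x₁ : ℝ, 0 ≤ x₁ ∧ ∀ x, x₁ ≤ x → ∀ y, 0 ≤ y → y < x → P.eval y < P.eval x := by
  have hder : P.derivative.natDegree = P.natDegree - 1 :=
    Polynomial.natDegree_derivative P
  have hd : Tendsto (fun x => P.derivative.eval x) atTop atTop := by
    apply Polynomial.tendsto_atTop_of_leadingCoeff_nonneg
    · exact Polynomial.natDegree_pos_iff_degree_pos.mp (by omega)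
    · rw [Polynomial.leadingCoeff, hder, Polynomial.coeff_derivative]
      have h2 : P.natDegree - 1 + 1 = P.natDegree := by omega
      rw [h2]
      have : 0 ≤ P.coeff P.natDegree := hl.le
      positivity
  have hP : Tendsto (fun x => P.eval x) atTop atTop := by
    apply Polynomial.tendsto_atTop_of_leadingCoeff_nonneg
    · exact Polynomial.natDegree_pos_iff_degree_pos.mp (by omega)
    · exact hl.le
  obtain ⟨x₀, hx₀⟩ := Filter.eventually_atTop.mp (hd.eventually_gt_atTop 0)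
  have hmono : StrictMonoOn (fun x => P.eval x) (Set.Ici (max x₀ 0)) := by
    apply strictMonoOn_of_deriv_pos (convex_Ici _) P.continuous.continuousOn
    intro x hx
    rw [interior_Ici] at hx
    rw [Polynomial.deriv]
    exact hx₀ x (le_trans (le_max_left _ _) (le_of_lt hx))
  obtain ⟨M, hM⟩ := (isCompact_Icc (a := (0:ℝ)) (b := max x₀ 0)).bddAbove_image
    P.continuous.continuousOn
  obtain ⟨x₂, hx₂⟩ := Filter.eventually_atTop.mp (hP.eventually_gt_atTop M)
  refine ⟨max x₂ (max x₀ 0), le_trans (le_max_right _ _) (le_max_right _ _), ?_⟩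
  intro x hx y hy0 hyx
  by_cases hy : y ≤ max x₀ 0
  · have h1 : P.eval y ≤ M := hM ⟨y, ⟨hy0, hy⟩, rfl⟩
    have h2 : M < P.eval x := hx₂ x (le_trans (le_max_left _ _) hx)
    linarith
  · push Not at hy
    exact hmono hy.le (le_trans hy.le hyx.le) hyx

lemma cXs (r : ℝ) (n k : ℕ) :
    ((X - C r) ^ n : ℝ[X]).coeff k = (-r) ^ (n - k) * (n.choose k : ℝ) := by
  rw [sub_eq_add_neg, ← C_neg, Polynomial.coeff_X_add_C_pow]

/-- the centroid of the roots -/
noncomputable def cen (P : ℝ[X]) : ℝ := - P.coeff (P.natDegree - 1) / (P.natDegree * P.leadingCoeff)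

noncomputable def Q (P : ℝ[X]) (α γ : ℝ) : ℝ[X] :=
  P.comp (C α * X + C γ) - C (α ^ P.natDegree) * P

lemma Q_eval (P : ℝ[X]) (α γ x : ℝ) :
    (Q P α γ).eval x = P.eval (α * x + γ) - α ^ P.natDegree * P.eval x := by
  simp [Q]

lemma Q_coeff (P : ℝ[X]) (hdeg : 2 ≤ P.natDegree) (hl : 0 < P.leadingCoeff) (α δ : ℝ) (hα : 0 < α) :
    (Q P α (cen P * (1 - α) + δ)).natDegree ≤ P.natDegree - 1 ∧
    (Q P α (cen P * (1 - α) + δ)).coeff (P.natDegree - 1) =
      P.leadingCoeff * P.natDegree * α ^ (P.natDegree - 1) * δ := by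
  set n := P.natDegree with hn
  set A := P.leadingCoeff with hA
  set s := cen P with hs
  set γ := s * (1 - α) + δ with hγ
  have hn0 : (n : ℝ) ≠ 0 := by positivity
  have hB : P.coeff (n - 1) = - (n * A * s) := by
    rw [hs, cen, ← hn, ← hA]
    field_simp
  -- R
  set R : ℝ[X] := P - C A * (X - C s) ^ n with hR
  have hRn : R.coeff n = 0 := by
    rw [hR, coeff_sub, coeff_C_mul, cXs]
    simp [hA, hn]
  have hRn1 : R.coeff (n - 1) = 0 := by
    rw [hR, coeff_sub, coeff_C_mul, cXs, hB]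
    have h1 : n - (n - 1) = 1 := by omega
    have h2 : n.choose (n - 1) = n := by
      rw [Nat.choose_symm_of_eq_add (show n = (n - 1) + 1 by omega)]
      simp
    rw [h1, h2]
    ring
  have hRdeg : R.natDegree ≤ n := by
    rw [hR]
    refine (natDegree_sub_le _ _).trans (max_le le_rfl ?_)
    refine (natDegree_C_mul_le _ _).trans ?_
    rw [natDegree_pow, natDegree_X_sub_C, mul_one]
  have hRdeg1 : R.natDegree ≤ n - 2 := by
    rw [natDegree_le_iff_coeff_eq_zero]
    intro N hN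
    rcases lt_trichotomy N n with h | h | h
    · have : N = n - 1 := by omega
      rw [this]; exact hRn1
    · rw [h]; exact hRn
    · exact coeff_eq_zero_of_natDegree_lt (lt_of_le_of_lt hRdeg h)
  have hP : P = C A * (X - C s) ^ n + R := by rw [hR]; ring
  set r : ℝ := (s - γ) / α with hr
  have hY : (C α * X + C γ : ℝ[X]) - C s = C α * (X - C r) := by
    rw [mul_sub, ← C_mul, hr, mul_div_cancel₀ _ hα.ne']
    simp only [C_sub]
    ring
  have hQ : Q P α γ = C (A * α ^ n) * ((X - C r) ^ n) - C (α ^ n * A) * (X - C s) ^ n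
      + (R.comp (C α * X + C γ) - C (α ^ n) * R) := by
    have h1 : P.comp (C α * X + C γ) = C A * (C α * (X - C r)) ^ n + R.comp (C α * X + C γ) := by
      rw [← hY]
      conv_lhs => rw [hP]
      simp
    rw [Q, h1, ← hn]
    conv_lhs => rw [hP]
    rw [mul_pow, C_mul, C_mul, C_pow]
    ring
  have hR2 : (R.comp (C α * X + C γ) - C (α ^ n) * R).natDegree ≤ n - 2 := by
    refine (natDegree_sub_le _ _).trans (max_le ?_ ?_)
    · refine natDegree_comp_le.trans ?_
      have : (C α * X + C γ : ℝ[X]).natDegree ≤ 1 := natDegree_linear_le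
      calc R.natDegree * (C α * X + C γ : ℝ[X]).natDegree ≤ (n - 2) * 1 :=
            Nat.mul_le_mul hRdeg1 this
        _ = n - 2 := mul_one _
    · exact (natDegree_C_mul_le _ _).trans hRdeg1
  have hR3 : ∀ m, n - 2 < m → (R.comp (C α * X + C γ) - C (α ^ n) * R).coeff m = 0 := fun m hm =>
    coeff_eq_zero_of_natDegree_lt (lt_of_le_of_lt hR2 hm)
  constructor
  · rw [natDegree_le_iff_coeff_eq_zero]
    intro N hN
    rw [hQ, coeff_add, hR3 N (by omega), coeff_sub, coeff_C_mul, coeff_C_mul, cXs,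
      cXs]
    rcases Nat.lt_or_ge n N with h | h
    · rw [Nat.choose_eq_zero_of_lt h]; simp
    · have : N = n := by omega
      rw [this]; simp; ring
  · rw [hQ, coeff_add, hR3 (n - 1) (by omega), coeff_sub, coeff_C_mul, coeff_C_mul,
      cXs, cXs]
    have h1 : n - (n - 1) = 1 := by omega
    have h2 : n.choose (n - 1) = n := by
      rw [Nat.choose_symm_of_eq_add (show n = (n - 1) + 1 by omega)]
      simp
    rw [h1, h2, hr, hγ]
    have h3 : α ^ n = α ^ (n - 1) * α := by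
      rw [← pow_succ]; congr 1; omega
    rw [h3]
    field_simp
    ring

lemma Q_eventually_pos (P : ℝ[X]) (hdeg : 2 ≤ P.natDegree) (hl : 0 < P.leadingCoeff) (α δ : ℝ)
    (hα : 0 < α) (hδ : 0 < δ) :
    ∃ x₂ : ℝ, ∀ x, x₂ ≤ x →
      α ^ P.natDegree * P.eval x < P.eval (α * x + (cen P * (1 - α) + δ)) := by
  obtain ⟨h1, h2⟩ := Q_coeff P hdeg hl α δ hα
  set T := Q P α (cen P * (1 - α) + δ) with hT
  have hpos : 0 < T.coeff (P.natDegree - 1) := by
    rw [h2]; positivity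
  have hdegT : T.natDegree = P.natDegree - 1 :=
    natDegree_eq_of_le_of_coeff_ne_zero h1 hpos.ne'
  have hlim : Tendsto (fun x => T.eval x) atTop atTop := by
    apply Polynomial.tendsto_atTop_of_leadingCoeff_nonneg
    · exact Polynomial.natDegree_pos_iff_degree_pos.mp (by omega)
    · rw [leadingCoeff, hdegT]; exact hpos.le
  obtain ⟨x₂, hx₂⟩ := Filter.eventually_atTop.mp (hlim.eventually_gt_atTop 0)
  refine ⟨x₂, fun x hx => ?_⟩
  have := hx₂ x hx
  rw [hT, Q_eval] at this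
  linarith

lemma Q_eventually_neg (P : ℝ[X]) (hdeg : 2 ≤ P.natDegree) (hl : 0 < P.leadingCoeff) (α δ : ℝ)
    (hα : 0 < α) (hδ : 0 < δ) :
    ∃ x₂ : ℝ, ∀ x, x₂ ≤ x →
      P.eval (α * x + (cen P * (1 - α) - δ)) < α ^ P.natDegree * P.eval x := by
  obtain ⟨h1, h2⟩ := Q_coeff P hdeg hl α (-δ) hα
  rw [← sub_eq_add_neg] at h1 h2
  set T := Q P α (cen P * (1 - α) - δ) with hT
  have hpos : T.coeff (P.natDegree - 1) < 0 := by
    rw [h2, mul_neg]
    have : 0 < P.leadingCoeff * ↑P.natDegree * α ^ (P.natDegree - 1) * δ := by positivity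
    linarith
  have hdegT : T.natDegree = P.natDegree - 1 :=
    natDegree_eq_of_le_of_coeff_ne_zero h1 hpos.ne
  have hlim : Tendsto (fun x => T.eval x) atTop atBot := by
    apply Polynomial.tendsto_atBot_of_leadingCoeff_nonpos
    · exact Polynomial.natDegree_pos_iff_degree_pos.mp (by omega)
    · rw [leadingCoeff, hdegT]; exact hpos.le
  obtain ⟨x₂, hx₂⟩ := Filter.eventually_atTop.mp (hlim.eventually_lt_atBot 0)
  refine ⟨x₂, fun x hx => ?_⟩
  have := hx₂ x hx
  rw [hT, Q_eval] at this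
  linarith

lemma approx (P : ℝ[X]) (hdeg : 2 ≤ P.natDegree) (hl : 0 < P.leadingCoeff) (α : ℝ)
    (hα : 0 < α) (δ : ℝ) (hδ : 0 < δ) :
    ∃ x₃ : ℝ, ∀ x, x₃ ≤ x → ∀ y, 0 ≤ y → P.eval y = α ^ P.natDegree * P.eval x →
      |y - (α * x + cen P * (1 - α))| < δ := by
  obtain ⟨x₁, hx₁0, hx₁⟩ := eventually_dom P hdeg hl
  obtain ⟨x₂, hx₂⟩ := Q_eventually_pos P hdeg hl α δ hα hδ
  obtain ⟨x₃, hx₃⟩ := Q_eventually_neg P hdeg hl α δ hα hδ
  refine ⟨max (max x₂ x₃) ((x₁ + |cen P * (1 - α)| + δ) / α), fun x hx y hy hyx => ?_⟩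
  have hxx₂ : x₂ ≤ x := le_trans (le_trans (le_max_left _ _) (le_max_left _ _)) hx
  have hxx₃ : x₃ ≤ x := le_trans (le_trans (le_max_right _ _) (le_max_left _ _)) hx
  have hxx : (x₁ + |cen P * (1 - α)| + δ) / α ≤ x := le_trans (le_max_right _ _) hx
  rw [div_le_iff₀ hα] at hxx
  have habs := neg_abs_le (cen P * (1 - α))
  have hm : x₁ ≤ α * x + (cen P * (1 - α) - δ) := by linarith
  have hp : x₁ ≤ α * x + (cen P * (1 - α) + δ) := by linarith
  rw [abs_lt]
  constructor
  · by_contra hcon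
    push Not at hcon
    have h1 : y ≤ α * x + (cen P * (1 - α) - δ) := by linarith
    have h2 : P.eval y ≤ P.eval (α * x + (cen P * (1 - α) - δ)) := by
      rcases h1.lt_or_eq with h | h
      · exact (hx₁ _ hm y hy h).le
      · rw [h]
    have h3 := hx₃ x hxx₃
    linarith
  · by_contra hcon
    push Not at hcon
    have h1 : α * x + (cen P * (1 - α) + δ) ≤ y := by linarith
    have h2 : P.eval (α * x + (cen P * (1 - α) + δ)) ≤ P.eval y := by
      rcases h1.lt_or_eq with h | h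
      · exact (hx₁ _ (hp.trans h1) _ (hx₁0.trans hp) h).le
      · rw [h]
    have h3 := hx₂ x hxx₂
    linarith

/-- irrational slope: the set of good `a` has density zero -/
lemma density_irr (W : ℕ → ℤ → Prop) (α β : ℝ) (hirr : Irrational α)
    (happ : ∀ δ : ℝ, 0 < δ → ∃ a₀ : ℕ, ∀ a, a₀ ≤ a → ∀ u, W a u → |(u : ℝ) - (α * a + β)| < δ)
    (ε : ℝ) (hε : 0 < ε) :
    ∃ N₀ : ℕ, ∀ N : ℕ, N₀ ≤ N → ∀ S : Finset ℕ, S ⊆ Finset.Icc 1 N → (∀ a ∈ S, ∃ u, W a u) →
      (S.card : ℝ) ≤ ε * N := by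
  obtain ⟨q, hq⟩ := exists_nat_gt (2 / ε)
  have hq0 : 0 < q := by
    have : (0:ℝ) < q := lt_trans (by positivity) hq
    exact_mod_cast this
  -- delta
  have hδ : ∃ δ : ℝ, 0 < δ ∧ ∀ r ∈ Finset.Icc 1 q, ∀ z : ℤ, 2 * δ ≤ |α * r - z| := by
    have hne : (Finset.Icc 1 q).Nonempty := ⟨1, by simp; omega⟩
    obtain ⟨r₀, hr₀, hmin⟩ := Finset.exists_min_image (Finset.Icc 1 q)
      (fun r : ℕ => |α * r - round (α * r)|) hne
    refine ⟨|α * r₀ - round (α * r₀)| / 2, ?_, ?_⟩
    · have hr₀' : r₀ ≠ 0 := by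
        have := (Finset.mem_Icc.mp hr₀).1
        omega
      have h1 : Irrational (α * r₀) := hirr.mul_natCast hr₀'
      have h2 : α * r₀ - round (α * r₀) ≠ 0 := by
        intro h
        have h3 : α * r₀ = ((round (α * r₀) : ℤ) : ℝ) := by linarith
        exact h1.ne_int _ h3
      positivity
    · intro r hr z
      have h1 := hmin r hr
      have h2 := round_le (α * r) z
      linarith
  obtain ⟨δ, hδ0, hδ⟩ := hδ
  obtain ⟨a₀, ha₀⟩ := happ δ hδ0
  obtain ⟨N₀, hN₀⟩ := exists_nat_gt ((a₀ + 1 : ℝ) * (2 / ε))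
  refine ⟨N₀, fun N hN S hS hW => ?_⟩
  classical
  have hsplit : S.card = (S.filter (fun a => a < a₀)).card + (S.filter (fun a => ¬ a < a₀)).card :=
    (Finset.card_filter_add_card_filter_not _).symm
  have h1 : (S.filter (fun a => a < a₀)).card ≤ a₀ := by
    calc (S.filter (fun a => a < a₀)).card ≤ (Finset.range a₀).card := by
          apply Finset.card_le_card
          intro a ha
          simp only [Finset.mem_filter] at ha
          simpa using ha.2
      _ = a₀ := by simp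
  have h2 : (S.filter (fun a => ¬ a < a₀)).card ≤ N / q + 1 := by
    calc (S.filter (fun a => ¬ a < a₀)).card ≤ (Finset.range (N / q + 1)).card := by
          apply Finset.card_le_card_of_injOn (fun a => a / q)
          · intro a ha
            simp only [Finset.coe_filter, Set.mem_ofPred_eq] at ha
            have := (Finset.mem_Icc.mp (hS ha.1)).2
            simp only [Finset.coe_range, Set.mem_Iio]
            exact Nat.lt_succ_of_le (Nat.div_le_div_right this)
          · -- injectivity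
            have key : ∀ a b : ℕ, a ∈ S → b ∈ S → a₀ ≤ a → a < b → a / q ≠ b / q := by
              intro a b ha hb haa hab hdiv
              obtain ⟨u, hu⟩ := hW a ha
              obtain ⟨v, hv⟩ := hW b hb
              have e1 := ha₀ a haa u hu
              have e2 := ha₀ b (haa.trans hab.le) v hv
              have hba : b - a ∈ Finset.Icc 1 q := by
                rw [Finset.mem_Icc]
                constructor
                · omega
                · have h3 := Nat.div_add_mod a q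
                  have h4 := Nat.div_add_mod b q
                  have h5 := Nat.mod_lt b hq0
                  rw [hdiv] at h3
                  omega
              have e3 := hδ (b - a) hba (v - u)
              have e4 : ((b - a : ℕ) : ℝ) = b - a := by
                rw [Nat.cast_sub hab.le]
              rw [e4] at e3
              have e5 : α * (b - a) - ((v - u : ℤ) : ℝ) =
                  ((u:ℝ) - (α * a + β)) - ((v : ℝ) - (α * b + β)) := by
                push_cast; ring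
              rw [e5] at e3
              have e6 := abs_sub ((u:ℝ) - (α * a + β)) ((v : ℝ) - (α * b + β))
              linarith
            intro a ha b hb hdiv
            simp only [Finset.coe_filter, Set.mem_ofPred_eq, not_lt] at ha hb
            simp only at hdiv
            rcases lt_trichotomy a b with h | h | h
            · exact absurd hdiv (key a b ha.1 hb.1 ha.2 h)
            · exact h
            · exact absurd hdiv.symm (key b a hb.1 ha.1 hb.2 h)
      _ = N / q + 1 := by simp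
  have h3 : ((N / q : ℕ) : ℝ) ≤ N / q := Nat.cast_div_le
  have hqr : (0:ℝ) < q := by exact_mod_cast hq0
  have h4 : (N : ℝ) / q ≤ ε / 2 * N := by
    rw [div_le_iff₀ hqr]
    have : 1 ≤ ε / 2 * q := by
      rw [div_lt_iff₀ hε] at hq
      linarith
    nlinarith [Nat.cast_nonneg (α := ℝ) N]
  have h5 : (a₀ + 1 : ℝ) ≤ ε / 2 * N := by
    have : (N₀ : ℝ) ≤ N := by exact_mod_cast hN
    have h6 : (a₀ + 1 : ℝ) * (2 / ε) < N := lt_of_lt_of_le hN₀ this
    rw [mul_div_assoc', div_lt_iff₀ hε] at h6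
    linarith
  have h7 : (S.card : ℝ) ≤ a₀ + ((N / q : ℕ) + 1) := by
    rw [hsplit]
    push_cast
    have : ((S.filter (fun a => a < a₀)).card : ℝ) ≤ a₀ := by exact_mod_cast h1
    have h8 : ((S.filter (fun a => ¬ a < a₀)).card : ℝ) ≤ ((N / q + 1 : ℕ) : ℝ) := by
      exact_mod_cast h2
    push_cast at h8
    linarith
  linarith

/-- rational slope: exact equality eventually, or finitely many -/
lemma rational_case (W : ℕ → ℤ → Prop) (α : ℚ) (β : ℝ)
    (happ : ∀ δ : ℝ, 0 < δ → ∃ a₀ : ℕ, ∀ a, a₀ ≤ a → ∀ u, W a u →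
      |(u : ℝ) - ((α : ℝ) * a + β)| < δ) :
    ∃ a₀ : ℕ, ∀ a, a₀ ≤ a → ∀ u, W a u → (u : ℝ) = (α : ℝ) * a + β := by
  have hden : (0 : ℝ) < α.den := by exact_mod_cast α.den_pos
  have hmul : (α : ℝ) * α.den = α.num := by
    have := Rat.mul_den_eq_num α
    exact_mod_cast this
  by_cases hβ : ∃ z : ℤ, (z : ℝ) = α.den * β
  · obtain ⟨z, hz⟩ := hβ
    obtain ⟨a₀, ha₀⟩ := happ (1 / α.den) (by positivity)
    refine ⟨a₀, fun a ha u hu => ?_⟩
    have h1 := ha₀ a ha u hu
    have h2 : |(α.den : ℝ) * u - (α.num * a + z)| < 1 := by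
      have : (α.den : ℝ) * u - (α.num * a + z) = α.den * ((u : ℝ) - ((α : ℝ) * a + β)) := by
        rw [hz, ← hmul]; ring
      rw [this, abs_mul, abs_of_pos hden]
      rw [lt_div_iff₀ hden] at h1
      linarith
    have h3 : |((α.den * u - (α.num * a + z) : ℤ) : ℝ)| < 1 := by
      push_cast
      exact h2
    have h4 : (α.den * u - (α.num * a + z) : ℤ) = 0 := by
      rw [← Int.cast_abs] at h3
      have : |(α.den * u - (α.num * a + z) : ℤ)| < 1 := by exact_mod_cast h3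
      exact Int.abs_lt_one_iff.mp this
    have h5 : (α.den : ℝ) * u - (α.num * a + z) = 0 := by exact_mod_cast h4
    have h6 : (α.den : ℝ) * ((u : ℝ) - ((α : ℝ) * a + β)) = 0 := by
      rw [← h5, hz, ← hmul]; ring
    rcases mul_eq_zero.mp h6 with h | h
    · exact absurd h hden.ne'
    · linarith
  · push Not at hβ
    set η : ℝ := |α.den * β - round (α.den * β)| with hη
    have hη0 : 0 < η := by
      have : α.den * β - round (α.den * β) ≠ 0 := by
        intro h
        exact hβ (round (α.den * β)) (by linarith)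
      positivity
    obtain ⟨a₀, ha₀⟩ := happ (η / α.den) (by positivity)
    refine ⟨a₀, fun a ha u hu => ?_⟩
    exfalso
    have h1 := ha₀ a ha u hu
    have h2 := round_le (α.den * β) (α.den * u - α.num * a)
    have h3 : |(α.den : ℝ) * β - ((α.den * u - α.num * a : ℤ) : ℝ)| =
        α.den * |(u : ℝ) - ((α : ℝ) * a + β)| := by
      rw [← abs_of_pos hden, ← abs_mul, abs_of_pos hden, abs_sub_comm]
      congr 1
      push_cast
      rw [← hmul]; ring
    rw [h3] at h2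
    rw [lt_div_iff₀ hden] at h1
    linarith

/-- `F (αx+β) = α^n F(x)` with `0<α<1` forces a single root -/
lemma no_func_eq (F : ℂ[X]) (hF : F ≠ 0) (z w : ℂ) (hzw : z ≠ w) (hz : F.eval z = 0)
    (hw : F.eval w = 0) (α β c : ℂ) (hα0 : α ≠ 0) (hα1 : ‖α‖ < 1)
    (h : ∀ x, F.eval (α * x + β) = c * F.eval x) : False := by
  classical
  set R := F.roots.toFinset with hR
  have hmem : ∀ x, x ∈ R ↔ F.eval x = 0 := by
    intro x
    rw [hR, Multiset.mem_toFinset, mem_roots hF, IsRoot.def]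
  set T := (R ×ˢ R).filter (fun p => p.1 ≠ p.2) with hT
  have hTn : T.Nonempty := ⟨(z, w), by simp [hT, hmem, hz, hw, hzw]⟩
  obtain ⟨p, hp, hmin⟩ := Finset.exists_min_image T (fun p => ‖p.1 - p.2‖) hTn
  simp only [hT, Finset.mem_filter, Finset.mem_product, hmem] at hp hmin
  have h1 := hmin (α * p.1 + β, α * p.2 + β) (by
    refine ⟨⟨?_, ?_⟩, ?_⟩
    · simp only; rw [h, hp.1.1, mul_zero]
    · simp only; rw [h, hp.1.2, mul_zero]
    · simp only
      intro h2
      have h3 : α * (p.1 - p.2) = 0 := by linear_combination h2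
      rcases mul_eq_zero.mp h3 with h4 | h4
      · exact hα0 h4
      · exact hp.2 (sub_eq_zero.mp h4))
  simp only at h1
  have h2 : α * p.1 + β - (α * p.2 + β) = α * (p.1 - p.2) := by ring
  rw [h2, norm_mul] at h1
  have h3 : 0 < ‖p.1 - p.2‖ := norm_pos_iff.mpr (sub_ne_zero.mpr hp.2)
  nlinarith

/-- For fixed `k < d`, the `a` such that `d F(u) = k F(a)` for some natural `u` have density zero. -/
lemma density_kd (F : ℤ[X]) (hdeg : 2 ≤ F.natDegree) (hl : 0 < F.leadingCoeff)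
    (hroots : ∃ z w : ℂ, z ≠ w ∧ aeval z F = 0 ∧ aeval w F = 0)
    (k d : ℕ) (hk : 0 < k) (hkd : k < d) (ε : ℝ) (hε : 0 < ε) :
    ∃ N₀ : ℕ, ∀ N : ℕ, N₀ ≤ N → ∀ S : Finset ℕ, S ⊆ Finset.Icc 1 N →
      (∀ a ∈ S, ∃ u : ℕ, (d : ℤ) * F.eval (u : ℤ) = k * F.eval (a : ℤ)) →
      (S.card : ℝ) ≤ ε * N := by
  set P : ℝ[X] := F.map (Int.castRingHom ℝ) with hP
  have hinj : Function.Injective (Int.castRingHom ℝ) := RingHom.injective_int _
  have hPdeg : P.natDegree = F.natDegree := natDegree_map_eq_of_injective hinj F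
  have hPl : P.leadingCoeff = (F.leadingCoeff : ℝ) := by
    rw [leadingCoeff, hPdeg, hP, coeff_map]; rfl
  have hPeval : ∀ m : ℤ, P.eval (m : ℝ) = ((F.eval m : ℤ) : ℝ) := by
    intro m
    rw [hP, eval_intCast_map]; rfl
  have hPdeg2 : 2 ≤ P.natDegree := hPdeg ▸ hdeg
  have hPl0 : 0 < P.leadingCoeff := by rw [hPl]; exact_mod_cast hl
  set n := P.natDegree with hn
  have hd : (0:ℝ) < d := by
    have : 0 < d := by omega
    exact_mod_cast this
  have hk' : (0:ℝ) < k := by exact_mod_cast hk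
  set c : ℝ := k / d with hc
  have hc0 : 0 < c := by positivity
  have hc1 : c < 1 := by
    rw [hc, div_lt_one hd]; exact_mod_cast hkd
  set α : ℝ := c ^ ((1:ℝ) / n) with hα
  have hn0 : (n : ℝ) ≠ 0 := by
    have : n ≠ 0 := by omega
    exact_mod_cast this
  have hα0 : 0 < α := Real.rpow_pos_of_pos hc0 _
  have hα1 : α < 1 := Real.rpow_lt_one hc0.le hc1 (by positivity)
  have hαn : α ^ n = c := by
    rw [hα, ← Real.rpow_natCast, ← Real.rpow_mul hc0.le]
    rw [one_div, inv_mul_cancel₀ hn0, Real.rpow_one]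
  set β : ℝ := cen P * (1 - α) with hβ
  let W : ℕ → ℤ → Prop := fun a u => 0 ≤ u ∧ (d : ℤ) * F.eval u = k * F.eval (a : ℤ)
  have hWP : ∀ a u, W a u → P.eval (u : ℝ) = α ^ n * P.eval (a : ℝ) := by
    intro a u hu
    have h1 := hu.2
    have h2 : (d : ℝ) * P.eval (u : ℝ) = k * P.eval (a : ℝ) := by
      have h3 := hPeval (a : ℤ)
      rw [Int.cast_natCast] at h3
      rw [hPeval, h3]
      exact_mod_cast h1
    rw [hαn, hc]
    field_simp
    linarith
  have happ : ∀ δ : ℝ, 0 < δ → ∃ a₀ : ℕ, ∀ a, a₀ ≤ a → ∀ u, W a u →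
      |(u : ℝ) - (α * a + β)| < δ := by
    intro δ hδ
    obtain ⟨x₃, hx₃⟩ := approx P hPdeg2 hPl0 α hα0 δ hδ
    obtain ⟨a₀, ha₀⟩ := exists_nat_ge x₃
    refine ⟨a₀, fun a ha u hu => ?_⟩
    apply hx₃ a (ha₀.trans (by exact_mod_cast ha)) u (by exact_mod_cast hu.1) (hWP a u hu)
  by_cases hirr : Irrational α
  · obtain ⟨N₀, hN₀⟩ := density_irr W α β hirr happ ε hε
    refine ⟨N₀, fun N hN S hS hSW => hN₀ N hN S hS ?_⟩
    intro a ha
    obtain ⟨u, hu⟩ := hSW a ha
    exact ⟨u, by positivity, hu⟩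
  · rw [Irrational, not_not] at hirr
    obtain ⟨q, hq⟩ := hirr
    obtain ⟨a₀, ha₀⟩ := rational_case W q β (by rw [hq]; exact happ)
    rw [hq] at ha₀
    -- the polynomial Q P α β is non-zero
    have hQne : Q P α β ≠ 0 := by
      intro hQ
      obtain ⟨z, w, hzw, hz, hw⟩ := hroots
      have hFC : F.map (Int.castRingHom ℂ) ≠ 0 := by
        rw [Ne, Polynomial.map_eq_zero_iff (RingHom.injective_int _)]
        rintro rfl
        simp at hl
      have hcomp : F.map (Int.castRingHom ℂ) = P.map (algebraMap ℝ ℂ) := by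
        rw [hP, Polynomial.map_map]
        congr 1
      apply no_func_eq (F.map (Int.castRingHom ℂ)) hFC z w hzw
        (by rw [eval_map, ← hz, aeval_def]; rfl) (by rw [eval_map, ← hw, aeval_def]; rfl)
        (α : ℂ) (β : ℂ) ((α ^ n : ℝ) : ℂ) (by exact_mod_cast hα0.ne')
        (by rw [Complex.norm_real, Real.norm_of_nonneg hα0.le]; exact hα1)
      intro x
      have h1 := congrArg (fun T : ℝ[X] => (T.map (algebraMap ℝ ℂ)).eval x) hQ
      simp only [Q, Polynomial.map_sub, Polynomial.map_comp, Polynomial.map_add,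
        Polynomial.map_mul, map_C, map_X, eval_sub, eval_comp, eval_add, eval_mul, eval_C,
        eval_X, Polynomial.map_zero, eval_zero] at h1
      rw [hcomp]
      rw [sub_eq_zero] at h1
      exact h1
    have hfin : {x : ℝ | (Q P α β).IsRoot x}.Finite := by
      by_contra hinf
      exact hQne (eq_zero_of_infinite_isRoot _ hinf)
    obtain ⟨M, hM⟩ := hfin.bddAbove
    obtain ⟨a₁, ha₁⟩ := exists_nat_gt M
    obtain ⟨N₀, hN₀⟩ := exists_nat_ge ((max a₀ a₁ : ℕ) / ε)
    refine ⟨N₀, fun N hN S hS hSW => ?_⟩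
    have hsub : S ⊆ Finset.range (max a₀ a₁) := by
      intro a ha
      rw [Finset.mem_range]
      by_contra hcon
      push Not at hcon
      obtain ⟨u, hu⟩ := hSW a ha
      have hWu : W a u := ⟨by positivity, hu⟩
      have h1 := ha₀ a ((le_max_left _ _).trans hcon) u hWu
      have h2 := hWP a u hWu
      rw [h1] at h2
      have h3 : (Q P α β).IsRoot (a : ℝ) := by
        rw [IsRoot.def, Q_eval, h2, sub_self]
      have h4 : (a : ℝ) ≤ M := hM h3
      have h5 : (a₁ : ℝ) ≤ a := by exact_mod_cast (le_max_right _ _).trans hcon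
      linarith
    have hcard : S.card ≤ max a₀ a₁ := by
      simpa using Finset.card_le_card hsub
    have h6 : (S.card : ℝ) ≤ (max a₀ a₁ : ℕ) := by exact_mod_cast hcard
    have h7 : (N₀ : ℝ) ≤ N := by exact_mod_cast hN
    have h8 : ((max a₀ a₁ : ℕ) : ℝ) / ε ≤ N := hN₀.trans h7
    rw [div_le_iff₀ hε] at h8
    linarith

/-- number of `a ≤ N` with `p ∣ F(a)`, good primes -/
lemma count_good (F : ℤ[X]) (p : ℕ) (hp : p.Prime) (hpl : ¬ (p : ℤ) ∣ F.leadingCoeff) (N : ℕ) :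
    ((Finset.Icc 1 N).filter (fun a : ℕ => (p : ℤ) ∣ F.eval (a : ℤ))).card ≤
      (N / p + 1) * F.natDegree := by
  classical
  have : Fact p.Prime := ⟨hp⟩
  set S := (Finset.Icc 1 N).filter (fun a : ℕ => (p : ℤ) ∣ F.eval (a : ℤ)) with hS
  set G : (ZMod p)[X] := F.map (Int.castRingHom (ZMod p)) with hG
  have hG0 : G ≠ 0 := by
    intro h
    have h1 : G.coeff F.natDegree = 0 := by rw [h, coeff_zero]
    rw [hG, coeff_map] at h1
    have h2 : ((F.leadingCoeff : ℤ) : ZMod p) = 0 := h1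
    rw [ZMod.intCast_zmod_eq_zero_iff_dvd] at h2
    exact hpl h2
  have himg : S.image (fun a : ℕ => (a : ZMod p)) ⊆ G.roots.toFinset := by
    intro r hr
    rw [Finset.mem_image] at hr
    obtain ⟨a, ha, rfl⟩ := hr
    rw [Multiset.mem_toFinset, mem_roots hG0, IsRoot.def, hG]
    have h1 := (Finset.mem_filter.mp ha).2
    have h2 : ((F.eval (a : ℤ) : ℤ) : ZMod p) = 0 := by
      rwa [ZMod.intCast_zmod_eq_zero_iff_dvd]
    have h3 := eval_intCast_map (Int.castRingHom (ZMod p)) F (a : ℤ)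
    rw [Int.cast_natCast] at h3
    rw [h3]; exact h2
  have hcard : (S.image (fun a : ℕ => (a : ZMod p))).card ≤ F.natDegree := by
    calc (S.image (fun a : ℕ => (a : ZMod p))).card ≤ G.roots.toFinset.card :=
          Finset.card_le_card himg
      _ ≤ Multiset.card G.roots := Multiset.toFinset_card_le _
      _ ≤ G.natDegree := card_roots' G
      _ ≤ F.natDegree := natDegree_map_le
  calc S.card ≤ (N / p + 1) * (S.image (fun a : ℕ => (a : ZMod p))).card := by
        apply Finset.card_le_mul_card_image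
        intro r _
        calc (S.filter (fun a : ℕ => (a : ZMod p) = r)).card
            ≤ (Finset.range (N / p + 1)).card := by
              apply Finset.card_le_card_of_injOn (fun a => a / p)
              · intro a ha
                simp only [Finset.coe_filter, Set.mem_ofPred_eq] at ha
                have h1 := (Finset.mem_filter.mp ha.1).1
                have := (Finset.mem_Icc.mp h1).2
                simp only [Finset.coe_range, Set.mem_Iio]
                exact Nat.lt_succ_of_le (Nat.div_le_div_right this)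
              · intro a ha b hb hab
                simp only [Finset.coe_filter, Set.mem_ofPred_eq] at ha hb
                simp only at hab
                have h1 : (a : ZMod p) = (b : ZMod p) := by rw [ha.2, hb.2]
                rw [ZMod.natCast_eq_natCast_iff] at h1
                have h2 := Nat.div_add_mod a p
                have h3 := Nat.div_add_mod b p
                have h4 : a % p = b % p := h1
                rw [hab, h4] at h2
                omega
          _ = N / p + 1 := by simp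
    _ ≤ (N / p + 1) * F.natDegree := Nat.mul_le_mul_left _ hcard

lemma count_p (F : ℤ[X]) (hl : 0 < F.leadingCoeff) (p : ℕ) (hp : p.Prime) (N : ℕ) (hpN : p ≤ N) :
    (((Finset.Icc 1 N).filter (fun a : ℕ => (p : ℤ) ∣ F.eval (a : ℤ))).card : ℝ) ≤
      (2 * F.natDegree + F.leadingCoeff) * (N / p) := by
  have hp0 : (0 : ℝ) < p := by exact_mod_cast hp.pos
  have hl' : (0:ℝ) < F.leadingCoeff := by exact_mod_cast hl
  have hNp : (1 : ℝ) ≤ N / p := by
    rw [le_div_iff₀ hp0, one_mul]; exact_mod_cast hpN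
  by_cases hpl : (p : ℤ) ∣ F.leadingCoeff
  · have h1 : (p : ℤ) ≤ F.leadingCoeff := Int.le_of_dvd hl hpl
    have h2 : (p : ℝ) ≤ F.leadingCoeff := by exact_mod_cast h1
    have h3 : ((Finset.Icc 1 N).filter (fun a : ℕ => (p : ℤ) ∣ F.eval (a : ℤ))).card ≤ N := by
      calc _ ≤ (Finset.Icc 1 N).card := Finset.card_filter_le _ _
        _ = N := by simp
    have h4 : (((Finset.Icc 1 N).filter (fun a : ℕ => (p : ℤ) ∣ F.eval (a : ℤ))).card : ℝ) ≤ N := by
      exact_mod_cast h3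
    have h5 : (N : ℝ) = p * (N / p) := by field_simp
    have h6 : (p : ℝ) * (N / p) ≤ F.leadingCoeff * (N / p) :=
      mul_le_mul_of_nonneg_right h2 (by positivity)
    have h7 : 0 ≤ 2 * (F.natDegree : ℝ) * (N / p) := by positivity
    linarith
  · have h1 := count_good F p hp hpl N
    have h2 : (((Finset.Icc 1 N).filter (fun a : ℕ => (p : ℤ) ∣ F.eval (a : ℤ))).card : ℝ) ≤
        ((N / p : ℕ) + 1) * F.natDegree := by exact_mod_cast h1
    have h3 : ((N / p : ℕ) : ℝ) ≤ N / p := Nat.cast_div_le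
    have h4 : (((N / p : ℕ) : ℝ) + 1) * F.natDegree ≤ (N / p + N / p) * F.natDegree :=
      mul_le_mul_of_nonneg_right (by linarith) (by positivity)
    have h5 : 0 ≤ (F.leadingCoeff : ℝ) * (N / p) := by positivity
    linarith

/-- the summable majorant -/
lemma summ : Summable (fun x : ℕ × ℕ => (1 / (x.1 : ℝ) ^ 2) * (1 / 2 : ℝ) ^ x.2) := by
  refine Summable.mul_of_nonneg (f := fun n : ℕ => 1 / (n : ℝ) ^ 2)
    (g := fun n : ℕ => (1 / 2 : ℝ) ^ n) ?_ ?_ ?_ ?_
  · exact Real.summable_one_div_nat_pow.mpr (by norm_num)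
  · exact summable_geometric_of_lt_one (by norm_num) (by norm_num)
  · intro i; positivity
  · intro i; positivity

lemma exists_tail (ε : ℝ) (hε : 0 < ε) : ∃ y : ℕ, ∀ T : Finset (ℕ × ℕ),
    (∀ x ∈ T, x.1.Prime ∧ 1 ≤ x.2 ∧ y < x.1 ^ x.2) →
    ∑ x ∈ T, 1 / (x.1 : ℝ) ^ (x.2 + 1) ≤ ε := by
  classical
  obtain ⟨s, hs⟩ := summable_iff_vanishing_norm.mp summ (ε / 2) (by positivity)
  refine ⟨s.sup (fun x => x.1 ^ x.2), fun T hT => ?_⟩
  have hdisj : Disjoint T s := by
    rw [Finset.disjoint_left]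
    intro x hx hxs
    have h1 := (hT x hx).2.2
    have h2 : x.1 ^ x.2 ≤ s.sup (fun x => x.1 ^ x.2) := Finset.le_sup (f := fun x : ℕ × ℕ => x.1 ^ x.2) hxs
    omega
  have h1 := hs T hdisj
  have h2 : ∑ x ∈ T, 1 / (x.1 : ℝ) ^ (x.2 + 1) ≤
      2 * ∑ x ∈ T, (1 / (x.1 : ℝ) ^ 2) * (1 / 2 : ℝ) ^ x.2 := by
    rw [Finset.mul_sum]
    apply Finset.sum_le_sum
    intro x hx
    obtain ⟨hp, hk, -⟩ := hT x hx
    obtain ⟨k, hk'⟩ : ∃ k, x.2 = k + 1 := ⟨x.2 - 1, by omega⟩
    have hp2 : (2 : ℝ) ≤ x.1 := by exact_mod_cast hp.two_le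
    rw [hk']
    have h3 : (x.1 : ℝ) ^ (k + 1 + 1) = (x.1 : ℝ) ^ 2 * (x.1 : ℝ) ^ k := by ring
    rw [h3, one_div, mul_inv]
    have h4 : ((x.1 : ℝ) ^ k)⁻¹ ≤ (1 / 2 : ℝ) ^ k := by
      rw [one_div, inv_pow]
      apply inv_anti₀ (by positivity)
      exact pow_le_pow_left₀ (by norm_num) hp2 k
    have h5 : (0:ℝ) ≤ ((x.1 : ℝ) ^ 2)⁻¹ := by positivity
    calc ((x.1 : ℝ) ^ 2)⁻¹ * ((x.1 : ℝ) ^ k)⁻¹ ≤ ((x.1 : ℝ) ^ 2)⁻¹ * (1 / 2 : ℝ) ^ k :=
          mul_le_mul_of_nonneg_left h4 h5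
      _ = 2 * (1 / (x.1 : ℝ) ^ 2 * (1 / 2 : ℝ) ^ (k + 1)) := by rw [pow_succ]; ring
  have h3 : ∑ x ∈ T, (1 / (x.1 : ℝ) ^ 2) * (1 / 2 : ℝ) ^ x.2 < ε / 2 :=
    lt_of_le_of_lt (le_abs_self _) h1
  linarith

lemma dvd_factorial_of (g y : ℕ) (h : ∀ p k : ℕ, p.Prime → p ^ k ∣ g → p ^ k ≤ y) :
    g ∣ y.factorial := by
  rw [Nat.dvd_iff_prime_pow_dvd_dvd]
  intro p k hp hpk
  exact Nat.dvd_factorial (pow_pos hp.pos k) (h p k hp hpk)

/-- pairs with large gcd are rare -/
lemma gcd_count (F : ℤ[X]) (hl : 0 < F.leadingCoeff) (ε : ℝ) (hε : 0 < ε) :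
    ∃ D : ℕ, ∀ N : ℕ,
      (((Finset.Icc 1 N ×ˢ Finset.Icc 1 N).filter
        (fun x : ℕ × ℕ => D < Int.gcd (F.eval (x.1 : ℤ)) x.2)).card : ℝ) ≤ ε * N ^ 2 := by
  classical
  set C : ℝ := 2 * F.natDegree + F.leadingCoeff with hC
  have hl' : (0:ℝ) < F.leadingCoeff := by exact_mod_cast hl
  have hC0 : 0 < C := by positivity
  obtain ⟨y₀, hy₀⟩ := exists_tail (ε / C) (by positivity)
  obtain ⟨y, hyy, hy1⟩ : ∃ y, y₀ ≤ y ∧ 1 ≤ y := ⟨y₀ + 1, by omega, by omega⟩
  refine ⟨y.factorial, fun N => ?_⟩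
  set T : Finset (ℕ × ℕ) := (Finset.Icc 1 N ×ˢ Finset.Icc 1 N).filter
    (fun x => x.1.Prime ∧ 1 ≤ x.2 ∧ y < x.1 ^ x.2 ∧ x.1 ^ x.2 ≤ N) with hT
  have hsub : (Finset.Icc 1 N ×ˢ Finset.Icc 1 N).filter
        (fun x : ℕ × ℕ => y.factorial < Int.gcd (F.eval (x.1 : ℤ)) x.2) ⊆
      T.biUnion (fun t => (Finset.Icc 1 N).filter (fun a : ℕ => (t.1 : ℤ) ∣ F.eval (a : ℤ)) ×ˢ
        (Finset.Icc 1 N).filter (fun h => t.1 ^ t.2 ∣ h)) := by
    intro x hx
    simp only [Finset.mem_filter, Finset.mem_product, Finset.mem_Icc] at hx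
    obtain ⟨⟨hx1, hx2⟩, hx3⟩ := hx
    set g := Int.gcd (F.eval (x.1 : ℤ)) x.2 with hg
    have hgx : g ∣ x.2 := by
      have := Int.gcd_dvd_right (F.eval (x.1 : ℤ)) (x.2 : ℤ)
      exact_mod_cast this
    have hgF : (g : ℤ) ∣ F.eval (x.1 : ℤ) := Int.gcd_dvd_left _ _
    have hex : ∃ p k : ℕ, p.Prime ∧ p ^ k ∣ g ∧ y < p ^ k := by
      by_contra hcon
      push Not at hcon
      have h1 := dvd_factorial_of g y (fun p k hp hpk => hcon p k hp hpk)
      have h2 := Nat.le_of_dvd (Nat.factorial_pos y) h1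
      omega
    obtain ⟨p, k, hp, hpk, hyk⟩ := hex
    have hk1 : 1 ≤ k := by
      rcases Nat.eq_zero_or_pos k with h | h
      · exfalso
        rw [h, pow_zero] at hyk
        omega
      · exact h
    have hpkN : p ^ k ≤ N := (Nat.le_of_dvd (by omega) (hpk.trans hgx)).trans hx2.2
    have hpp : p ∣ p ^ k := dvd_pow_self p (by omega)
    have hpN : p ≤ N := (Nat.le_of_dvd (pow_pos hp.pos k) hpp).trans hpkN
    have hkN : k ≤ N := (Nat.lt_pow_self hp.one_lt).le.trans hpkN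
    rw [Finset.mem_biUnion]
    refine ⟨(p, k), ?_, ?_⟩
    · simp only [hT, Finset.mem_filter, Finset.mem_product, Finset.mem_Icc]
      exact ⟨⟨⟨hp.one_lt.le, hpN⟩, ⟨hk1, hkN⟩⟩, hp, hk1, hyk, hpkN⟩
    · simp only [Finset.mem_filter, Finset.mem_product, Finset.mem_Icc]
      refine ⟨⟨hx1, ?_⟩, ⟨hx2, hpk.trans hgx⟩⟩
      exact (Int.natCast_dvd_natCast.mpr (hpp.trans hpk)).trans hgF
  have hcount : ∀ t ∈ T, (((Finset.Icc 1 N).filter (fun a : ℕ => (t.1 : ℤ) ∣ F.eval (a : ℤ)) ×ˢ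
        (Finset.Icc 1 N).filter (fun h => t.1 ^ t.2 ∣ h)).card : ℝ) ≤
        C * N ^ 2 * (1 / (t.1 : ℝ) ^ (t.2 + 1)) := by
    intro t ht
    simp only [hT, Finset.mem_filter, Finset.mem_product, Finset.mem_Icc] at ht
    obtain ⟨⟨⟨_, hpN⟩, _⟩, hp, hk1, hyk, hpkN⟩ := ht
    have hp0 : (0:ℝ) < t.1 := by exact_mod_cast hp.pos
    rw [Finset.card_product, Nat.cast_mul]
    have h1 := count_p F hl t.1 hp N hpN
    have h2 : ((Finset.Icc 1 N).filter (fun h => t.1 ^ t.2 ∣ h)).card = N / t.1 ^ t.2 := by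
      have := Nat.Ioc_filter_dvd_card_eq_div N (t.1 ^ t.2)
      rw [← this]
      congr 1
    rw [h2]
    have h3 : ((N / t.1 ^ t.2 : ℕ) : ℝ) ≤ N / (t.1 : ℝ) ^ t.2 := by
      have := Nat.cast_div_le (α := ℝ) (m := N) (n := t.1 ^ t.2)
      rwa [Nat.cast_pow] at this
    calc _ ≤ (C * (N / t.1)) * (N / (t.1 : ℝ) ^ t.2) := by
          apply mul_le_mul h1 h3 (by positivity) (by positivity)
      _ = C * N ^ 2 * (1 / (t.1 : ℝ) ^ (t.2 + 1)) := by
          rw [pow_succ]; field_simp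
          ring
  have hsum : ∑ x ∈ T, 1 / (x.1 : ℝ) ^ (x.2 + 1) ≤ ε / C := by
    apply hy₀
    intro x hx
    simp only [hT, Finset.mem_filter] at hx
    exact ⟨hx.2.1, hx.2.2.1, lt_of_le_of_lt hyy hx.2.2.2.1⟩
  have h1 : ((Finset.Icc 1 N ×ˢ Finset.Icc 1 N).filter
        (fun x : ℕ × ℕ => y.factorial < Int.gcd (F.eval (x.1 : ℤ)) x.2)).card ≤
      ∑ t ∈ T, ((Finset.Icc 1 N).filter (fun a : ℕ => (t.1 : ℤ) ∣ F.eval (a : ℤ)) ×ˢ
        (Finset.Icc 1 N).filter (fun h => t.1 ^ t.2 ∣ h)).card :=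
    (Finset.card_le_card hsub).trans Finset.card_biUnion_le
  have h2 : (((Finset.Icc 1 N ×ˢ Finset.Icc 1 N).filter
        (fun x : ℕ × ℕ => y.factorial < Int.gcd (F.eval (x.1 : ℤ)) x.2)).card : ℝ) ≤
      ∑ t ∈ T, C * N ^ 2 * (1 / (t.1 : ℝ) ^ (t.2 + 1)) := by
    calc _ ≤ ((∑ t ∈ T, ((Finset.Icc 1 N).filter (fun a : ℕ => (t.1 : ℤ) ∣ F.eval (a : ℤ)) ×ˢ
        (Finset.Icc 1 N).filter (fun h => t.1 ^ t.2 ∣ h)).card : ℕ) : ℝ) := by exact_mod_cast h1
      _ ≤ _ := by
        rw [Nat.cast_sum]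
        exact Finset.sum_le_sum hcount
  rw [← Finset.mul_sum] at h2
  refine h2.trans ?_
  calc C * N ^ 2 * ∑ x ∈ T, 1 / (x.1 : ℝ) ^ (x.2 + 1) ≤ C * N ^ 2 * (ε / C) :=
        mul_le_mul_of_nonneg_left hsum (by positivity)
    _ = ε * N ^ 2 := by field_simp

/-- natural number version of domination -/
lemma dom_nat (F : ℤ[X]) (hdeg : 2 ≤ F.natDegree) (hl : 0 < F.leadingCoeff) :
    ∃ a₀ : ℕ, ∀ a : ℕ, a₀ ≤ a → 0 < F.eval (a : ℤ) ∧
      ∀ u : ℕ, u < a → F.eval (u : ℤ) < F.eval (a : ℤ) := by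
  set P : ℝ[X] := F.map (Int.castRingHom ℝ) with hP
  have hinj : Function.Injective (Int.castRingHom ℝ) := RingHom.injective_int _
  have hPdeg : P.natDegree = F.natDegree := natDegree_map_eq_of_injective hinj F
  have hPl : P.leadingCoeff = (F.leadingCoeff : ℝ) := by
    rw [leadingCoeff, hPdeg, hP, coeff_map]; rfl
  have hPeval : ∀ m : ℕ, P.eval (m : ℝ) = ((F.eval (m : ℤ) : ℤ) : ℝ) := by
    intro m
    have := eval_intCast_map (Int.castRingHom ℝ) F (m : ℤ)
    rw [Int.cast_natCast] at this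
    rw [hP, this]; rfl
  have hPdeg2 : 2 ≤ P.natDegree := hPdeg ▸ hdeg
  have hPl0 : 0 < P.leadingCoeff := by rw [hPl]; exact_mod_cast hl
  obtain ⟨x₁, hx₁0, hx₁⟩ := eventually_dom P hPdeg2 hPl0
  have hlim : Tendsto (fun x => P.eval x) atTop atTop := by
    apply Polynomial.tendsto_atTop_of_leadingCoeff_nonneg
    · exact Polynomial.natDegree_pos_iff_degree_pos.mp (by omega)
    · exact hPl0.le
  obtain ⟨x₂, hx₂⟩ := Filter.eventually_atTop.mp (hlim.eventually_gt_atTop 0)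
  obtain ⟨a₀, ha₀⟩ := exists_nat_ge (max x₁ x₂)
  refine ⟨a₀, fun a ha => ⟨?_, fun u hu => ?_⟩⟩
  · have h1 : x₂ ≤ (a : ℝ) := (le_max_right _ _).trans (ha₀.trans (by exact_mod_cast ha))
    have h2 := hx₂ a h1
    rw [hPeval] at h2
    exact_mod_cast h2
  · have h1 : x₁ ≤ (a : ℝ) := (le_max_left _ _).trans (ha₀.trans (by exact_mod_cast ha))
    have h2 := hx₁ a h1 u (by positivity) (by exact_mod_cast hu)
    rw [hPeval, hPeval] at h2
    exact_mod_cast h2

/-- the invisible points with `a` large -/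
lemma invisible_imp (F : ℤ[X]) (a h : ℕ) (ha : 0 < a) (hh : 0 < h) (hFa : 0 < F.eval (a : ℤ))
    (hdom : ∀ u : ℕ, u < a → F.eval (u : ℤ) < F.eval (a : ℤ)) (hinv : ¬ VisibleAlong F a h) :
    ∃ k d u : ℕ, 0 < k ∧ k < d ∧ d ≤ Int.gcd (F.eval (a : ℤ)) h ∧
      (d : ℤ) * F.eval (u : ℤ) = k * F.eval (a : ℤ) := by
  have hFa' : ((F.eval (a : ℤ) : ℤ) : ℚ) ≠ 0 := by
    have : F.eval (a : ℤ) ≠ 0 := hFa.ne'
    exact_mod_cast this
  set t : ℚ := h / ((F.eval (a : ℤ) : ℤ) : ℚ) with ht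
  have hta : t * ((F.eval (a : ℤ) : ℤ) : ℚ) = h := by
    rw [ht]; field_simp
  have h1 : ¬ IsLeast {u : ℕ | 0 < u ∧ ∃ m : ℕ, 0 < m ∧ t * ((F.eval (u : ℤ) : ℤ) : ℚ) = m} a := by
    intro hl
    exact hinv ⟨ha, hh, t, hta.symm, hl⟩
  have h2 : ∃ u : ℕ, (0 < u ∧ ∃ m : ℕ, 0 < m ∧ t * ((F.eval (u : ℤ) : ℤ) : ℚ) = m) ∧ u < a := by
    by_contra hcon
    push Not at hcon
    apply h1
    refine ⟨⟨ha, h, hh, hta⟩, ?_⟩
    intro u hu
    exact hcon u hu
  obtain ⟨u, ⟨_, m, hm, htm⟩, hua⟩ := h2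
  have h3 : (h : ℤ) * F.eval (u : ℤ) = m * F.eval (a : ℤ) := by
    have : (h : ℚ) * ((F.eval (u : ℤ) : ℤ) : ℚ) = m * ((F.eval (a : ℤ) : ℤ) : ℚ) := by
      rw [← htm, ← hta]; ring
    exact_mod_cast this
  have hlt := hdom u hua
  have hmh : m < h := by
    have h4 : (m : ℤ) * F.eval (a : ℤ) < h * F.eval (a : ℤ) := by
      rw [← h3]
      exact mul_lt_mul_of_pos_left hlt (by exact_mod_cast hh)
    have h5 : (m : ℤ) < h := lt_of_mul_lt_mul_right h4 hFa.le
    exact_mod_cast h5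
  -- divide by the gcd of h and m
  set g := Nat.gcd h m with hg
  have hg0 : 0 < g := Nat.gcd_pos_of_pos_left _ hh
  obtain ⟨d, hd⟩ : g ∣ h := Nat.gcd_dvd_left _ _
  obtain ⟨k, hk⟩ : g ∣ m := Nat.gcd_dvd_right _ _
  have hk0 : 0 < k := by
    rcases Nat.eq_zero_or_pos k with h | h
    · rw [h, mul_zero] at hk; omega
    · exact h
  have hkd : k < d := by
    rw [hd, hk] at hmh
    exact lt_of_mul_lt_mul_left hmh (Nat.zero_le _)
  have heq : (d : ℤ) * F.eval (u : ℤ) = k * F.eval (a : ℤ) := by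
    have h6 : (g : ℤ) * ((d : ℤ) * F.eval (u : ℤ)) = g * (k * F.eval (a : ℤ)) := by
      have e1 : (h : ℤ) = g * d := by exact_mod_cast hd
      have e2 : (m : ℤ) = g * k := by exact_mod_cast hk
      rw [e1, e2] at h3
      linarith
    exact mul_left_cancel₀ (by exact_mod_cast hg0.ne') h6
  have hcop : Nat.Coprime d k := by
    have h7 : Nat.gcd (g * d) (g * k) = g := by rw [← hd, ← hk]
    rw [Nat.gcd_mul_left] at h7
    have h8 : g * Nat.gcd d k = g * 1 := by rw [h7, mul_one]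
    exact Nat.eq_of_mul_eq_mul_left hg0 h8
  have hdF : (d : ℤ) ∣ F.eval (a : ℤ) := by
    have h9 : (d : ℤ) ∣ k * F.eval (a : ℤ) := ⟨_, heq.symm⟩
    have h10 : IsCoprime (d : ℤ) (k : ℤ) := Nat.isCoprime_iff_coprime.mpr hcop
    exact h10.dvd_of_dvd_mul_left h9
  have hdh : (d : ℤ) ∣ (h : ℤ) := Int.natCast_dvd_natCast.mpr ⟨g, by rw [hd]; ring⟩
  have hdg : d ∣ Int.gcd (F.eval (a : ℤ)) h := by
    have := Int.dvd_gcd hdF hdh
    exact_mod_cast this
  refine ⟨k, d, u, hk0, hkd, Nat.le_of_dvd ?_ hdg, heq⟩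
  exact Int.gcd_pos_of_ne_zero_left _ hFa.ne'

open Classical in
theorem invisible_small (F : ℤ[X]) (hl : 0 < F.leadingCoeff)
    (hroots : ∃ z w : ℂ, z ≠ w ∧ aeval z F = 0 ∧ aeval w F = 0) (ε : ℝ) (hε : 0 < ε) :
    ∃ N₀ : ℕ, ∀ N : ℕ, N₀ ≤ N →
      (((Finset.Icc 1 N ×ˢ Finset.Icc 1 N).filter
        (fun x : ℕ × ℕ => ¬ VisibleAlong F x.1 x.2)).card : ℝ) ≤ ε * N ^ 2 := by
  have hdeg : 2 ≤ F.natDegree := by
    obtain ⟨z, w, hzw, hz, hw⟩ := hroots
    have hFC : F.map (Int.castRingHom ℂ) ≠ 0 := by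
      rw [Ne, Polynomial.map_eq_zero_iff (RingHom.injective_int _)]
      rintro rfl
      simp at hl
    have h1 : ({z, w} : Finset ℂ) ⊆ (F.map (Int.castRingHom ℂ)).roots.toFinset := by
      intro x hx
      rw [Multiset.mem_toFinset, mem_roots hFC, IsRoot.def, eval_map]
      simp only [Finset.mem_insert, Finset.mem_singleton] at hx
      rcases hx with rfl | rfl
      · rw [← hz, aeval_def]; rfl
      · rw [← hw, aeval_def]; rfl
    calc 2 = ({z, w} : Finset ℂ).card := (Finset.card_pair hzw).symm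
      _ ≤ _ := Finset.card_le_card h1
      _ ≤ _ := Multiset.toFinset_card_le _
      _ ≤ (F.map (Int.castRingHom ℂ)).natDegree := card_roots' _
      _ ≤ F.natDegree := natDegree_map_le
  obtain ⟨a₀, ha₀⟩ := dom_nat F hdeg hl
  obtain ⟨D, hD⟩ := gcd_count F hl (ε / 3) (by positivity)
  set K : Finset (ℕ × ℕ) := (Finset.range (D + 1) ×ˢ Finset.range (D + 1)).filter
    (fun x => 0 < x.1 ∧ x.1 < x.2) with hK
  set η : ℝ := ε / (3 * (K.card + 1)) with hη
  have hη0 : 0 < η := by positivity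
  have hkd : ∀ x ∈ K, ∃ N₀ : ℕ, ∀ N : ℕ, N₀ ≤ N → ∀ S : Finset ℕ, S ⊆ Finset.Icc 1 N →
      (∀ a ∈ S, ∃ u : ℕ, (x.2 : ℤ) * F.eval (u : ℤ) = x.1 * F.eval (a : ℤ)) →
      (S.card : ℝ) ≤ η * N := by
    intro x hx
    simp only [hK, Finset.mem_filter] at hx
    exact density_kd F hdeg hl hroots x.1 x.2 hx.2.1 hx.2.2 η hη0
  choose! N₁ hN₁ using hkd
  obtain ⟨N₂, hN₂⟩ := exists_nat_ge (a₀ / (ε / 3))
  refine ⟨max (K.sup N₁) N₂, fun N hN => ?_⟩
  have hNK : ∀ x ∈ K, N₁ x ≤ N := fun x hx =>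
    (Finset.le_sup hx).trans ((le_max_left _ _).trans hN)
  have hNN : N₂ ≤ N := (le_max_right _ _).trans hN
  set B1 : Finset (ℕ × ℕ) := Finset.range a₀ ×ˢ Finset.Icc 1 N with hB1
  set B2 : Finset (ℕ × ℕ) := (Finset.Icc 1 N ×ˢ Finset.Icc 1 N).filter
        (fun x : ℕ × ℕ => D < Int.gcd (F.eval (x.1 : ℤ)) x.2) with hB2
  set S : ℕ × ℕ → Finset ℕ := fun y => (Finset.Icc 1 N).filter
    (fun a : ℕ => ∃ u : ℕ, (y.2 : ℤ) * F.eval (u : ℤ) = y.1 * F.eval (a : ℤ)) with hS
  set B3 : Finset (ℕ × ℕ) := K.biUnion (fun y => S y ×ˢ Finset.Icc 1 N) with hB3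
  have hsub : (Finset.Icc 1 N ×ˢ Finset.Icc 1 N).filter
        (fun x : ℕ × ℕ => ¬ VisibleAlong F x.1 x.2) ⊆ B1 ∪ (B2 ∪ B3) := by
    intro x hx
    simp only [Finset.mem_filter, Finset.mem_product] at hx
    obtain ⟨⟨hx1, hx2⟩, hx3⟩ := hx
    rw [Finset.mem_union, Finset.mem_union]
    by_cases hxa : x.1 < a₀
    · left
      simp only [hB1, Finset.mem_product, Finset.mem_range]
      exact ⟨hxa, hx2⟩
    · right
      push Not at hxa
      obtain ⟨hpos, hdom⟩ := ha₀ x.1 hxa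
      obtain ⟨k, d, u, hk, hkd, hdg, heq⟩ := invisible_imp F x.1 x.2 (Finset.mem_Icc.mp hx1).1
        (Finset.mem_Icc.mp hx2).1 hpos hdom hx3
      by_cases hg : D < Int.gcd (F.eval (x.1 : ℤ)) x.2
      · left
        simp only [hB2, Finset.mem_filter, Finset.mem_product]
        exact ⟨⟨hx1, hx2⟩, hg⟩
      · right
        push Not at hg
        rw [hB3, Finset.mem_biUnion]
        refine ⟨(k, d), ?_, ?_⟩
        · simp only [hK, Finset.mem_filter, Finset.mem_product, Finset.mem_range]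
          exact ⟨⟨by omega, by omega⟩, hk, hkd⟩
        · simp only [hS, Finset.mem_filter, Finset.mem_product]
          exact ⟨⟨hx1, u, heq⟩, hx2⟩
  have hNr : (0 : ℝ) ≤ N := Nat.cast_nonneg N
  have c1 : (B1.card : ℝ) ≤ ε / 3 * N ^ 2 := by
    rw [hB1, Finset.card_product, Finset.card_range, Nat.card_Icc]
    push_cast
    have h1 : (a₀ : ℝ) / (ε / 3) ≤ N := hN₂.trans (by exact_mod_cast hNN)
    rw [div_le_iff₀ (by positivity)] at h1
    have h2 : ((N + 1 - 1 : ℕ) : ℝ) = N := by simp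
    nlinarith
  have c2 : (B2.card : ℝ) ≤ ε / 3 * N ^ 2 := hD N
  have c3 : (B3.card : ℝ) ≤ ε / 3 * N ^ 2 := by
    have h1 : B3.card ≤ ∑ y ∈ K, (S y ×ˢ Finset.Icc 1 N).card := Finset.card_biUnion_le
    have h2 : (B3.card : ℝ) ≤ ∑ y ∈ K, η * N * N := by
      calc (B3.card : ℝ) ≤ ((∑ y ∈ K, (S y ×ˢ Finset.Icc 1 N).card : ℕ) : ℝ) := by
            exact_mod_cast h1
        _ = ∑ y ∈ K, ((S y).card : ℝ) * N := by
            rw [Nat.cast_sum]
            apply Finset.sum_congr rfl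
            intro y _
            rw [Finset.card_product, Nat.card_Icc]
            simp
        _ ≤ _ := by
            apply Finset.sum_le_sum
            intro y hy
            apply mul_le_mul_of_nonneg_right _ hNr
            apply hN₁ y hy N (hNK y hy)
            · exact Finset.filter_subset _ _
            · intro a ha
              exact (Finset.mem_filter.mp ha).2
    rw [Finset.sum_const, nsmul_eq_mul] at h2
    have h3 : (K.card : ℝ) * η ≤ ε / 3 := by
      rw [hη]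
      rw [mul_div_assoc', div_le_div_iff₀ (by positivity) (by norm_num)]
      nlinarith
    calc (B3.card : ℝ) ≤ (K.card : ℝ) * (η * N * N) := h2
      _ = ((K.card : ℝ) * η) * N ^ 2 := by ring
      _ ≤ ε / 3 * N ^ 2 := mul_le_mul_of_nonneg_right h3 (by positivity)
  have hcard := Finset.card_le_card hsub
  have h4 : (B1 ∪ (B2 ∪ B3)).card ≤ B1.card + (B2.card + B3.card) :=
    (Finset.card_union_le _ _).trans (Nat.add_le_add_left (Finset.card_union_le _ _) _)
  have h5 : (((Finset.Icc 1 N ×ˢ Finset.Icc 1 N).filter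
        (fun x : ℕ × ℕ => ¬ VisibleAlong F x.1 x.2)).card : ℝ) ≤
        B1.card + (B2.card + B3.card) := by exact_mod_cast hcard.trans h4
  linarith

/-- **Full answer to Q1.** If `F ∈ ℤ[x]` has positive leading coefficient and at least two distinct
complex roots, then the density of the points visible along `F` exists and equals `1`. -/
theorem density_one (F : ℤ[X]) (hl : 0 < F.leadingCoeff)
    (hroots : ∃ z w : ℂ, z ≠ w ∧ aeval z F = 0 ∧ aeval w F = 0) :
    Tendsto (fun N : ℕ =>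
      (Set.ncard {x : ℕ × ℕ | x.1 ∈ Set.Icc 1 N ∧ x.2 ∈ Set.Icc 1 N ∧ VisibleAlong F x.1 x.2} : ℝ)
        / (N : ℝ) ^ 2) atTop (𝓝 1) := by
  classical
  rw [Metric.tendsto_atTop]
  intro ε hε
  obtain ⟨N₀, hN₀⟩ := invisible_small F hl hroots (ε / 2) (by positivity)
  refine ⟨max N₀ 1, fun N hN => ?_⟩
  have h1 := hN₀ N ((le_max_left _ _).trans hN)
  have hN1 : 1 ≤ N := (le_max_right _ _).trans hN
  have hNr : (0 : ℝ) < N := by exact_mod_cast hN1
  set V := (Finset.Icc 1 N ×ˢ Finset.Icc 1 N).filter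
        (fun x : ℕ × ℕ => VisibleAlong F x.1 x.2) with hV
  have hset : {x : ℕ × ℕ | x.1 ∈ Set.Icc 1 N ∧ x.2 ∈ Set.Icc 1 N ∧ VisibleAlong F x.1 x.2} =
      (V : Set (ℕ × ℕ)) := by
    ext x
    simp only [hV, Set.mem_ofPred_eq, Finset.coe_filter, Finset.mem_product, Finset.mem_Icc,
      Set.mem_Icc]
    tauto
  rw [hset, Set.ncard_coe_finset]
  set I := (Finset.Icc 1 N ×ˢ Finset.Icc 1 N).filter
        (fun x : ℕ × ℕ => ¬ VisibleAlong F x.1 x.2) with hI
  have h1' : (I.card : ℝ) ≤ ε / 2 * N ^ 2 := by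
    convert h1
  have h2 : V.card + I.card = N * N := by
    rw [hV, hI, Finset.card_filter_add_card_filter_not, Finset.card_product, Nat.card_Icc]
    simp
  have h3 : (V.card : ℝ) + I.card = N ^ 2 := by
    rw [pow_two]; exact_mod_cast h2
  rw [Real.dist_eq]
  have h4 : (V.card : ℝ) / (N : ℝ) ^ 2 - 1 = - (I.card / (N : ℝ) ^ 2) := by
    rw [← h3]
    have : (V.card : ℝ) + I.card ≠ 0 := by rw [h3]; positivity
    field_simp
    ring
  rw [h4, abs_neg, abs_of_nonneg (by positivity), div_lt_iff₀ (by positivity)]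
  have h5 : ε / 2 * (N : ℝ) ^ 2 < ε * N ^ 2 := by
    have : (0:ℝ) < N ^ 2 := by positivity
    nlinarith
  linarith

end Pool.Agent.Lib.MP_543a09_nt
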